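import Pool.Agent.H667.FI.Syn

set_option autoImplicit false

/-!
Building structures from a homogeneous structure for fluted logic: every word of the new structure
gets a word of the old structure, chosen from the types of its two maximal proper factors and a
label.
-/

namespace Pool.Agent.H667.FI

open FirstOrder Set
open Pool.Agent.H565R2.FO2 (Interp Code toI ofI toI_ofI Iso)

variable {L : FirstOrder.Language.{0, 0}}

/-- Types. -/
abbrev Ty (L : FirstOrder.Language.{0, 0}) : Type := List (Set (Fo L))

variable {B : Type} (J : Interp L B)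

/-- Elements alone in their type. -/
def King (b : B) : Prop := ∀ b', ty J [b'] = ty J [b] → b' = b

/-- The universe of the new structure. -/
abbrev W : Type := {p : B × List ℕ // King J p.1 → p.2 = []}

/-- The labels. -/
def lab {J : Interp L B} (b : W J) (n : ℕ) : ℕ := b.1.2.getD n 0

/-- Amalgams of two types. -/
def Cand (P P' : Ty L) : Set (Ty L) :=
  {Q | ∃ c d, ty J c = P ∧ c.head? ≠ some d ∧ ty J (d :: c) = Q ∧ ty J (d :: c).dropLast = P'}

/-- Homogeneity. -/
def Hom : Prop := ∀ w w' : List B, ty J w = ty J w' → ∀ b, ∃ b', ty J (b :: w) = ty J (b' :: w')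

open Classical in
/-- A representative. -/
noncomputable def rep (c : List B) (Q : Ty L) (b0 : B) : B :=
  if h : ∃ d, ty J (d :: c) = Q then h.choose else b0

variable {J}

theorem rep_spec {c : List B} {Q : Ty L} {b0 : B} (h : ∃ d, ty J (d :: c) = Q) :
    ty J (rep J c Q b0 :: c) = Q := by
  unfold rep
  rw [dif_pos h]
  exact h.choose_spec

theorem cand_ext (hJ : Hom J) {P P' Q : Ty L} (hQ : Q ∈ Cand J P P') {u : List B}
    (hu : ty J u = P) {d' : B} (hd' : ty J (d' :: u) = Q) :
    u.head? ≠ some d' ∧ ty J (d' :: u).dropLast = P' := by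
  obtain ⟨c, d, hc, hcd, hQ1, hQ2⟩ := hQ
  constructor
  · intro h
    match u, h with
    | x :: u, h =>
      have hx : x = d' := by simpa using h
      subst hx
      have h1 := hc.trans hu.symm
      match c, hcd, hQ1, h1 with
      | [], _, _, h1 => simpa using len_of_ty h1
      | y :: c, hcd, hQ1, h1 =>
        have h2 : ty J (d :: y :: c) = ty J (x :: x :: u) := hQ1.trans hd'.symm
        have := (ty_eq_iff h2).2 rfl
        subst this
        simp at hcd
  · rw [← hQ2]
    exact ty_dropLast (hd'.trans hQ1.symm)

theorem cand_real (hJ : Hom J) {P P' Q : Ty L} (hQ : Q ∈ Cand J P P') {u : List B}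
    (hu : ty J u = P) : ∃ d', ty J (d' :: u) = Q := by
  obtain ⟨c, d, hc, hcd, hQ1, hQ2⟩ := hQ
  obtain ⟨d', hd'⟩ := hJ c u (hc.trans hu.symm) d
  exact ⟨d', hd'.symm.trans hQ1⟩

variable (ch : List (W J) → Ty L → Ty L → ℕ → Ty L)

open Classical in
/-- The next entry. -/
noncomputable def nx (b : W J) (w : List (W J)) (u u' : List B) : B :=
  if w.head? = some b then u.headD b.1.1
  else rep J u (ch w (ty J u) (ty J u') (lab b w.length)) b.1.1

/-- The word of the old structure attached to a word of the new one. -/
noncomputable def tw : List (W J) → List B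
  | [] => []
  | [b] => [b.1.1]
  | b :: a :: w => nx ch b (a :: w) (tw (a :: w)) (tw (b :: (a :: w).dropLast)) :: tw (a :: w)
termination_by w => w.length
decreasing_by
  all_goals simp

theorem tw_nil : tw ch [] = [] := by rw [tw]

theorem tw_one (b : W J) : tw ch [b] = [b.1.1] := by rw [tw]

theorem tw_cons (b : W J) {w : List (W J)} (hw : w ≠ []) :
    tw ch (b :: w) = nx ch b w (tw ch w) (tw ch (b :: w.dropLast)) :: tw ch w := by
  match w, hw with
  | a :: w, _ => rw [tw]

theorem tw_tail (b : W J) (w : List (W J)) : ∃ d, tw ch (b :: w) = d :: tw ch w := by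
  by_cases hw : w = []
  · subst hw
    exact ⟨b.1.1, by rw [tw_one, tw_nil]⟩
  · exact ⟨_, tw_cons ch b hw⟩

theorem tw_length (w : List (W J)) : (tw ch w).length = w.length := by
  induction w with
  | nil => rw [tw_nil]; rfl
  | cons b w ih =>
    obtain ⟨d, hd⟩ := tw_tail ch b w
    rw [hd, List.length_cons, List.length_cons, ih]

theorem tw_ne {w : List (W J)} (hw : w ≠ []) : tw ch w ≠ [] := by
  intro h
  have := tw_length ch w
  rw [h] at this
  exact hw (List.length_eq_zero_iff.1 this.symm)

theorem tw_head (b : W J) {w : List (W J)} (h : w.head? = some b) :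
    ∃ d u, tw ch w = d :: u ∧ tw ch (b :: w) = d :: d :: u := by
  match w, h with
  | a :: w, h =>
    have ha : a = b := by simpa using h
    subst ha
    obtain ⟨d, hd⟩ := tw_tail ch a w
    refine ⟨d, _, hd, ?_⟩
    rw [tw_cons ch a (List.cons_ne_nil _ _)]
    have : nx ch a (a :: w) (tw ch (a :: w)) (tw ch (a :: (a :: w).dropLast)) = d := by
      unfold nx
      rw [if_pos (by simp), hd]; rfl
    rw [this, hd]

/-- The invariants of the construction. -/
def Good (w : List (W J)) : Prop :=
  ty J (tw ch w).dropLast = ty J (tw ch w.dropLast) ∧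
    (Sat J .eq (tw ch w) ↔ ∃ a u, w = a :: a :: u)

/-- The assumptions on the choice function. -/
structure Adm : Prop where
  mem : ∀ w P P' ℓ, (Cand J P P').Nonempty → ch w P P' ℓ ∈ Cand J P P'
  surj : ∀ w P P' Q, Q ∈ Cand J P P' → ∃ ℓ, ch w P P' ℓ = Q

theorem king_of_ty {b b' : B} (h : ty J [b'] = ty J [b]) (hb : King J b) : King J b' := by
  have := hb b' h
  subst this; exact hb

variable {ch}

theorem cand_nonempty (hJ : Hom J) (b : W J) {w : List (W J)} (hw : w ≠ [])
    (hb : w.head? ≠ some b) (h1 : Good ch w) (h2 : Good ch (b :: w.dropLast)) :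
    (Cand J (ty J (tw ch w)) (ty J (tw ch (b :: w.dropLast)))).Nonempty := by
  match w, hw with
  | [a], _ =>
    have hab : a ≠ b := by simpa using hb
    have : ∃ d, d ≠ a.1.1 ∧ ty J [d] = ty J [b.1.1] := by
      by_cases h : b.1.1 = a.1.1
      · by_cases hk : King J b.1.1
        · exfalso
          apply hab
          have e1 := b.2 hk
          have e2 := a.2 (h ▸ hk)
          exact Subtype.ext (Prod.ext h.symm (e2.trans e1.symm))
        · unfold King at hk
          push Not at hk
          obtain ⟨d, hd1, hd2⟩ := hk
          exact ⟨d, h ▸ hd2, hd1⟩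
      · exact ⟨_, h, rfl⟩
    obtain ⟨d, hd1, hd2⟩ := this
    refine ⟨_, tw ch [a], d, rfl, ?_, rfl, ?_⟩
    · rw [tw_one]
      simpa using hd1.symm
    · rw [tw_one, List.dropLast_singleton, tw_one]
      exact hd2
  | a :: a2 :: w2, _ =>
    have hd : (a :: a2 :: w2).dropLast = a :: (a2 :: w2).dropLast := rfl
    have hab : a ≠ b := by simpa using hb
    obtain ⟨d0, hd0⟩ := tw_tail ch b ((a :: a2 :: w2).dropLast)
    obtain ⟨d, hd'⟩ := hJ _ _ h1.1.symm d0
    obtain ⟨x, hx⟩ := tw_tail ch a (a2 :: w2)
    have hne : tw ch (a2 :: w2) ≠ [] := tw_ne ch (List.cons_ne_nil _ _)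
    refine ⟨_, tw ch (a :: a2 :: w2), d, rfl, ?_, rfl, ?_⟩
    · intro h
      rw [hx] at h
      have hxd : x = d := by simpa using h
      subst hxd
      have e1 : (tw ch (a :: a2 :: w2)).dropLast = x :: (tw ch (a2 :: w2)).dropLast := by
        rw [hx, List.dropLast_cons_of_ne_nil hne]
      rw [e1] at hd'
      have e2 : Sat J .eq (x :: x :: (tw ch (a2 :: w2)).dropLast) := ⟨x, _, rfl⟩
      have e3 := (sat_of_ty hd' .eq).2 e2
      rw [← hd0] at e3
      obtain ⟨a', u, hu⟩ := h2.2.1 e3
      rw [hd] at hu
      simp only [List.cons.injEq] at hu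
      exact hab (hu.2.1.trans hu.1.symm)
    · rw [List.dropLast_cons_of_ne_nil (tw_ne ch (List.cons_ne_nil _ _)), hd0]
      exact hd'.symm

theorem nx_spec (hJ : Hom J) (hch : Adm ch) (b : W J) {w : List (W J)} (hw : w ≠ [])
    (hb : w.head? ≠ some b) (h1 : Good ch w) (h2 : Good ch (b :: w.dropLast)) :
    ty J (tw ch (b :: w)) =
      ch w (ty J (tw ch w)) (ty J (tw ch (b :: w.dropLast))) (lab b w.length) ∧
    ty J (tw ch (b :: w)) ∈ Cand J (ty J (tw ch w)) (ty J (tw ch (b :: w.dropLast))) := by
  have hc := hch.mem w (ty J (tw ch w)) (ty J (tw ch (b :: w.dropLast))) (lab b w.length)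
    (cand_nonempty hJ b hw hb h1 h2)
  have hr := cand_real hJ hc (u := tw ch w) rfl
  have hs := rep_spec (b0 := b.1.1) hr
  have : tw ch (b :: w) = rep J (tw ch w) (ch w (ty J (tw ch w)) (ty J (tw ch (b :: w.dropLast)))
      (lab b w.length)) b.1.1 :: tw ch w := by
    rw [tw_cons ch b hw]
    unfold nx
    rw [if_neg hb]
  rw [this, hs]
  exact ⟨rfl, hc⟩

theorem good (hJ : Hom J) (hch : Adm ch) : ∀ w : List (W J), Good ch w := by
  have key : ∀ n, ∀ w : List (W J), w.length ≤ n → Good ch w := by
    intro n
    induction n with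
    | zero =>
      intro w hw
      have : w = [] := List.length_eq_zero_iff.1 (by omega)
      subst this
      refine ⟨by simp [tw_nil], ?_⟩
      rw [tw_nil]; simp [Sat]
    | succ n ih =>
      intro w hw
      match w, hw with
      | [], _ =>
        refine ⟨by simp [tw_nil], ?_⟩
        rw [tw_nil]; simp [Sat]
      | [b], _ =>
        refine ⟨by rw [tw_one, List.dropLast_singleton, List.dropLast_singleton, tw_nil], ?_⟩
        rw [tw_one]; simp [Sat]
      | b :: a :: w, hw =>
        have h1 : Good ch (a :: w) := ih _ (by simpa using hw)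
        have h2 : Good ch (b :: (a :: w).dropLast) := ih _ (by simpa using hw)
        have hdl : (b :: a :: w).dropLast = b :: (a :: w).dropLast := rfl
        by_cases hb : (a :: w).head? = some b
        · have hab : a = b := by simpa using hb
          subst hab
          obtain ⟨d, u, hd, hd'⟩ := tw_head ch a hb
          constructor
          · rw [hd', hdl]
            match w with
            | [] =>
              rw [tw_one] at hd
              simp only [List.cons.injEq] at hd
              obtain ⟨rfl, rfl⟩ := hd
              rw [List.dropLast_singleton, tw_one]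
              rfl
            | c :: w =>
              have hdl2 : (a :: c :: w).dropLast = a :: (c :: w).dropLast := rfl
              obtain ⟨d', u', he, he'⟩ := tw_head ch a (w := (a :: c :: w).dropLast) (by
                rw [hdl2]; rfl)
              rw [he']
              have hu : u ≠ [] := by
                rintro rfl
                have := tw_length ch (a :: c :: w)
                rw [hd] at this
                simp at this
              have h3 := h1.1
              rw [hd, List.dropLast_cons_of_ne_nil hu, he] at h3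
              rw [List.dropLast_cons_of_ne_nil (List.cons_ne_nil _ _),
                List.dropLast_cons_of_ne_nil hu]
              exact ty_rep h3
          · rw [hd']
            exact ⟨fun _ => ⟨a, w, rfl⟩, fun _ => ⟨d, u, rfl⟩⟩
        · have h3 := (nx_spec hJ hch b (List.cons_ne_nil a w) hb h1 h2).2
          obtain ⟨r, hr⟩ := tw_tail ch b (a :: w)
          rw [hr] at h3
          have h4 := cand_ext hJ h3 rfl rfl
          constructor
          · rw [hr, hdl]
            exact h4.2
          · rw [hr]
            constructor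
            · rintro ⟨x, v, hx⟩
              exfalso
              apply h4.1
              simp only [List.cons.injEq] at hx
              rw [hx.1, hx.2]; rfl
            · rintro ⟨x, v, hx⟩
              exfalso
              apply hb
              simp only [List.cons.injEq] at hx
              rw [hx.1, hx.2.1]; rfl
  exact fun w => key w.length w le_rfl

/-- Kings keep their value. -/
theorem tw_king (hJ : Hom J) (hch : Adm ch) (b : W J) (hb : King J b.1.1) : ∀ n,
    ∀ w : List (W J), w.length ≤ n → tw ch (b :: w) = b.1.1 :: tw ch w := by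
  intro n
  induction n with
  | zero =>
    intro w hw
    have : w = [] := List.length_eq_zero_iff.1 (by omega)
    subst this
    rw [tw_one, tw_nil]
  | succ n ih =>
    intro w hw
    by_cases hw0 : w = []
    · subst hw0; rw [tw_one, tw_nil]
    · by_cases hh : w.head? = some b
      · obtain ⟨d, u, hd, hd'⟩ := tw_head ch b hh
        match w, hh with
        | a :: w, hh =>
          have ha : a = b := by simpa using hh
          subst ha
          have h1 := ih w (by simpa using hw)
          rw [hd] at h1
          simp only [List.cons.injEq] at h1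
          rw [hd', hd, h1.1]
      · obtain ⟨r, hr⟩ := tw_tail ch b w
        have h1 := (good hJ hch (b :: w)).1
        rw [hr] at h1 ⊢
        have e1 : (b :: w).dropLast = b :: w.dropLast := List.dropLast_cons_of_ne_nil hw0
        have hl : w.length ≠ 0 := fun h => hw0 (List.length_eq_zero_iff.1 h)
        rw [e1, List.dropLast_cons_of_ne_nil (tw_ne ch hw0),
          ih w.dropLast (by rw [List.length_dropLast]; omega)] at h1
        have h2 := ty_single h1
        rw [hb r h2]

theorem ty_lift (hJ : Hom J) (hch : Adm ch) {w : List (W J)} (hw : w ≠ []) (d : B) :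
    ∃ d', ty J (d :: tw ch w).dropLast = ty J (d' :: tw ch w.dropLast) := by
  rw [List.dropLast_cons_of_ne_nil (tw_ne ch hw)]
  exact hJ _ _ (good hJ hch w).1 d

/-- Adequacy with prescribed labels. -/
theorem adeq (hJ : Hom J) (hch : Adm ch) : ∀ n, ∀ w : List (W J), w.length ≤ n → ∀ d : B,
    ¬ King J d → (tw ch w).head? ≠ some d → ∀ (F : List (W J)) (Λ : ℕ → ℕ) (N : ℕ),
    ∃ b : W J, b ∉ F ∧ w.head? ≠ some b ∧ ¬ King J b.1.1 ∧
      ty J (tw ch (b :: w)) = ty J (d :: tw ch w) ∧
      ∀ j, w.length < j → j ≤ N → lab b j = Λ j := by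
  intro n
  induction n with
  | zero =>
    intro w hw d hd hdw F Λ N
    have : w = [] := List.length_eq_zero_iff.1 (by omega)
    subst this
    let m : ℕ := (F.map fun f => lab f (N + 1)).sum + 1
    have hm : ∀ f ∈ F, lab f (N + 1) ≠ m := by
      intro f hf h
      have h1 : lab f (N + 1) ≤ (F.map fun f => lab f (N + 1)).sum :=
        List.single_le_sum (by simp) _ (List.mem_map_of_mem hf)
      have : lab f (N + 1) < m := by show _ < _ + 1; omega
      omega
    let s : List ℕ := (List.range (N + 1)).map Λ ++ [m]
    have hs1 : ∀ j ≤ N, s.getD j 0 = Λ j := by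
      intro j hj
      show ((List.range (N + 1)).map Λ ++ [m]).getD j 0 = Λ j
      rw [List.getD_append _ _ _ _ (by simp; omega)]
      simp [List.getD, List.getElem?_range (show j < N + 1 by omega)]
    have hs2 : s.getD (N + 1) 0 = m := by
      show ((List.range (N + 1)).map Λ ++ [m]).getD (N + 1) 0 = m
      rw [List.getD_append_right _ _ _ _ (by simp)]
      simp
    refine ⟨⟨(d, s), fun h => absurd h hd⟩, ?_, by simp, hd, by rw [tw_one, tw_nil], ?_⟩
    · intro hF
      exact hm _ hF hs2
    · intro j _ hj
      exact hs1 j hj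
  | succ n ih =>
    intro w hw d hd hdw F Λ N
    by_cases hw0 : w = []
    · exact ih w (by rw [hw0]; simp) d hd hdw F Λ N
    · have hl : w.length ≠ 0 := fun h => hw0 (List.length_eq_zero_iff.1 h)
      obtain ⟨d', hd'⟩ := ty_lift hJ hch hw0 d
      have hdl : (d :: tw ch w).dropLast = d :: (tw ch w).dropLast :=
        List.dropLast_cons_of_ne_nil (tw_ne ch hw0)
      have hdk : ¬ King J d' := by
        intro hk
        apply hd
        have : ty J [d] = ty J [d'] := by
          rw [hdl] at hd'
          exact ty_single hd'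
        exact king_of_ty this hk
      have hdh : (tw ch w.dropLast).head? ≠ some d' := by
        intro h
        match w, hw0 with
        | [a], _ =>
          rw [List.dropLast_singleton, tw_nil] at h
          simp at h
        | a :: a2 :: w2, _ =>
          obtain ⟨x, hx⟩ := tw_tail ch a (a2 :: w2)
          obtain ⟨y, hy⟩ := tw_tail ch a ((a2 :: w2).dropLast)
          have e0 : (a :: a2 :: w2).dropLast = a :: (a2 :: w2).dropLast := rfl
          rw [e0] at h hd'
          rw [hy] at h hd'
          have hyd : y = d' := by simpa using h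
          subst hyd
          rw [hdl, hx, List.dropLast_cons_of_ne_nil (tw_ne ch (List.cons_ne_nil _ _))] at hd'
          have := (ty_eq_iff hd').2 rfl
          subst this
          apply hdw
          rw [hx]; rfl
      have hcand : ty J (d :: tw ch w) ∈
          Cand J (ty J (tw ch w)) (ty J (d' :: tw ch w.dropLast)) :=
        ⟨tw ch w, d, rfl, hdw, rfl, hd'⟩
      obtain ⟨ℓ, hℓ⟩ := hch.surj w _ _ _ hcand
      obtain ⟨b, hbF, hbh, hbk, hbt, hbl⟩ := ih w.dropLast (by rw [List.length_dropLast]; omega)
        d' hdk hdh (w ++ F) (fun j => if j = w.length then ℓ else Λ j) (max N w.length)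
      have hbw : w.head? ≠ some b := by
        intro h
        apply hbF
        exact List.mem_append_left _ (List.mem_of_mem_head? h)
      have hlab : lab b w.length = ℓ := by
        have := hbl w.length (by rw [List.length_dropLast]; omega) (le_max_right _ _)
        rwa [if_pos rfl] at this
      refine ⟨b, fun h => hbF (List.mem_append_right _ h), hbw, hbk, ?_, ?_⟩
      · rw [(nx_spec hJ hch b hw0 hbw (good hJ hch _) (good hJ hch _)).1, hbt, hlab, hℓ]
      · intro j h1 h2
        have := hbl j (by rw [List.length_dropLast]; omega) (le_trans h2 (le_max_left _ _))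
        rwa [if_neg (by omega)] at this

theorem adeq_all (hJ : Hom J) (hch : Adm ch) (w : List (W J)) (d : B) :
    ∃ b : W J, ty J (tw ch (b :: w)) = ty J (d :: tw ch w) := by
  by_cases h : (tw ch w).head? = some d
  · match w with
    | [] => rw [tw_nil] at h; simp at h
    | a :: w =>
      obtain ⟨d', u, h1, h2⟩ := tw_head ch a (w := a :: w) rfl
      refine ⟨a, ?_⟩
      rw [h2, h1]
      rw [h1] at h
      have : d' = d := by simpa using h
      rw [this]
  · by_cases hk : King J d
    · exact ⟨⟨(d, []), fun _ => rfl⟩, by rw [tw_king hJ hch _ hk _ w le_rfl]⟩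
    · obtain ⟨b, -, -, -, hb, -⟩ := adeq hJ hch _ w le_rfl d hk h [] (fun _ => 0) 0
      exact ⟨b, hb⟩

/-- The new structure. -/
def str (ch : List (W J) → Ty L → Ty L → ℕ → Ty L) : Interp L (W J) := fun _ R v =>
  Sat J (.rel R) (tw ch (List.ofFn v).reverse)

theorem sat_rel_append (I : Interp L B) {n : ℕ} (R : L.Relations n) (w : List B) (a : B)
    (h : n ≤ w.length) : Sat I (.rel R) (w ++ [a]) ↔ Sat I (.rel R) w := by
  obtain ⟨v, u, rfl⟩ := exists_word h
  rw [List.append_assoc, sat_rel_iff, sat_rel_iff]

theorem tw_rel (hJ : Hom J) (hch : Adm ch) {n : ℕ} (R : L.Relations n) :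
    ∀ (k : ℕ) (v u : List (W J)), u.length = k → v.length = n →
      (Sat J (.rel R) (tw ch (v ++ u)) ↔ Sat J (.rel R) (tw ch v)) := by
  intro k
  induction k with
  | zero =>
    intro v u hu hv
    have : u = [] := List.length_eq_zero_iff.1 hu
    subst this
    rw [List.append_nil]
  | succ k ih =>
    intro v u hu hv
    obtain ⟨u', a, rfl⟩ : ∃ u' a, u = u' ++ [a] := by
      rcases List.eq_nil_or_concat u with h | ⟨u', a, h⟩
      · subst h; simp at hu
      · exact ⟨u', a, by simpa using h⟩
    have h1 := (good hJ hch (v ++ (u' ++ [a]))).1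
    rw [← List.append_assoc, List.dropLast_concat] at h1
    have hlen : (tw ch (v ++ u' ++ [a])).length = v.length + u'.length + 1 := by
      rw [tw_length]; simp; omega
    obtain ⟨z, c, hz⟩ : ∃ z c, tw ch (v ++ u' ++ [a]) = z ++ [c] := by
      rcases List.eq_nil_or_concat (tw ch (v ++ u' ++ [a])) with h | ⟨u', a, h⟩
      · rw [h] at hlen; simp at hlen
      · exact ⟨u', a, by simpa using h⟩
    rw [hz, List.dropLast_concat] at h1
    rw [← List.append_assoc, hz, sat_rel_append, sat_of_ty h1, ih v u' (by simpa using hu) hv]
    rw [hz] at hlen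
    simp at hlen
    omega

/-- The truth lemma. -/
theorem truth (hJ : Hom J) (hch : Adm ch) (φ : Fo L) : ∀ w : List (W J),
    Sat (str ch) φ w ↔ Sat J φ (tw ch w) := by
  induction φ with
  | eq => intro w; exact (good hJ hch w).2.symm
  | @rel n R =>
    intro w
    by_cases h : n ≤ w.length
    · obtain ⟨v, u, rfl⟩ := exists_word (n := n) (w := w) h
      rw [sat_rel_iff, tw_rel hJ hch R _ _ u rfl (by simp)]
      exact Iff.rfl
    · constructor
      · intro h'; exact absurd (sat_rel_len _ R h') h
      · intro h'
        have := sat_rel_len _ R h'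
        rw [tw_length] at this
        exact absurd this h
  | neg φ h1 =>
    intro w
    simp only [Sat, h1 w]
  | inf e h1 =>
    intro w
    simp only [Sat, h1 _ w]
  | ex φ h1 =>
    intro w
    constructor
    · rintro ⟨b, hb⟩
      obtain ⟨d, hd⟩ := tw_tail ch b w
      refine ⟨d, ?_⟩
      rw [h1, hd] at hb
      exact hb
    · rintro ⟨d, hd⟩
      obtain ⟨b, hb⟩ := adeq_all hJ hch w d
      exact ⟨b, (h1 _).2 ((sat_of_ty hb φ).2 hd)⟩
  | prev φ h1 =>
    intro w
    match w with
    | [] =>
      have := h1 []
      rw [tw_nil] at this ⊢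
      exact this
    | b :: w =>
      obtain ⟨d, hd⟩ := tw_tail ch b w
      rw [hd]
      exact h1 w

theorem ty_str (hJ : Hom J) (hch : Adm ch) (w : List (W J)) : ty (str ch) w = ty J (tw ch w) := by
  induction w with
  | nil =>
    rw [tw_nil]
    simp only [ty]
    congr 1
    ext φ
    have := truth hJ hch φ []
    rw [tw_nil] at this
    exact this
  | cons b w ih =>
    obtain ⟨d, hd⟩ := tw_tail ch b w
    rw [hd, ty_cons]
    refine ⟨?_, ih⟩
    ext φ
    have := truth hJ hch φ (b :: w)
    rw [hd] at this
    exact this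

end Pool.Agent.H667.FI
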