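import Pool.Agent.H667.FI.Bld

set_option autoImplicit false

/-!
Determinism of the construction on short words, and the special choice function.
-/

namespace Pool.Agent.H667.FI

open FirstOrder Set
open Pool.Agent.H565R2.FO2 (Interp Code toI ofI toI_ofI Iso)

variable {L : FirstOrder.Language.{0, 0}} {B : Type} {J : Interp L B}
variable {ch : List (W J) → Ty L → Ty L → ℕ → Ty L}

theorem tw_suffix (ch : List (W J) → Ty L → Ty L → ℕ → Ty L) (v w : List (W J)) :
    ∃ u, u.length = v.length ∧ tw ch (v ++ w) = u ++ tw ch w := by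
  induction v with
  | nil => exact ⟨[], rfl, rfl⟩
  | cons b v ih =>
    obtain ⟨u, hu, h⟩ := ih
    obtain ⟨d, hd⟩ := tw_tail ch b (v ++ w)
    exact ⟨d :: u, by simp [hu], by rw [List.cons_append, hd, h, List.cons_append]⟩

/-- The choice function does not look at words of length less than `k`. -/
def Pl (ch : List (W J) → Ty L → Ty L → ℕ → Ty L) (k : ℕ) : Prop :=
  ∀ w w' P P' ℓ, w.length = w'.length → w.length < k → ch w P P' ℓ = ch w' P P' ℓ

theorem getLast?_cons_ne {α : Type} {b : α} {v : List α} {a : α} (hv : v ≠ [])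
    (h : (b :: v).getLast? ≠ some a) : v.getLast? ≠ some a := by
  intro h'
  apply h
  match v, hv with
  | c :: v, _ => rw [List.getLast?_cons_cons]; exact h'

theorem det (hJ : Hom J) (hch : Adm ch) (k : ℕ) (hpl : Pl ch k) : ∀ n, n ≤ k →
    ∀ (v : List (W J)) (r : ℕ) (κ : List (W J)) (a a' : W J),
      v.length + r + κ.length ≤ n → ty J (tw ch (a :: κ)) = ty J (tw ch (a' :: κ)) →
      v.getLast? ≠ some a → v.getLast? ≠ some a' →
      ty J (tw ch (v ++ (List.replicate r a ++ κ))) =
        ty J (tw ch (v ++ (List.replicate r a' ++ κ))) := by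
  intro n
  induction n with
  | zero =>
    intro _ v r κ a a' hl _ _ _
    have h1 : v = [] := List.length_eq_zero_iff.1 (by omega)
    have h2 : κ = [] := List.length_eq_zero_iff.1 (by omega)
    have h3 : r = 0 := by omega
    subst h1; subst h2; subst h3
    rfl
  | succ n ih =>
    intro hn v r κ a a' hl hty ha ha'
    match v, r with
    | _, 0 => rfl
    | [], 1 => exact hty
    | [], r + 2 =>
      have h1 := ih (by omega) [] (r + 1) κ a a' (by simp at hl ⊢; omega) hty (by simp) (by simp)
      rw [List.nil_append, List.nil_append] at h1 ⊢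
      have e : ∀ a : W J, List.replicate (r + 2) a ++ κ =
        a :: (List.replicate (r + 1) a ++ κ) := fun _ => rfl
      rw [e, e]
      obtain ⟨d, u, h2, h3⟩ := tw_head ch a (w := List.replicate (r + 1) a ++ κ) rfl
      obtain ⟨d', u', h2', h3'⟩ := tw_head ch a' (w := List.replicate (r + 1) a' ++ κ) rfl
      rw [h3, h3']
      rw [h2, h2'] at h1
      exact ty_rep h1
    | b :: v, r + 1 =>
      have hw : ty J (tw ch (v ++ (List.replicate (r + 1) a ++ κ))) =
          ty J (tw ch (v ++ (List.replicate (r + 1) a' ++ κ))) := by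
        by_cases hv : v = []
        · subst hv
          exact ih (by omega) [] (r + 1) κ a a' (by simp at hl ⊢; omega) hty (by simp) (by simp)
        · exact ih (by omega) v (r + 1) κ a a' (by simp at hl ⊢; omega) hty
            (getLast?_cons_ne hv ha) (getLast?_cons_ne hv ha')
      have hdl : ty J (tw ch (b :: (v ++ (List.replicate (r + 1) a ++ κ)).dropLast)) =
          ty J (tw ch (b :: (v ++ (List.replicate (r + 1) a' ++ κ)).dropLast)) := by
        by_cases hκ : κ = []
        · subst hκ
          have e : ∀ a : W J, b :: (v ++ (List.replicate (r + 1) a ++ [])).dropLast =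
              (b :: v) ++ (List.replicate r a ++ []) := by
            intro a
            rw [List.append_nil, List.append_nil, List.replicate_succ', ← List.append_assoc,
              List.dropLast_concat]
            rfl
          rw [e, e]
          exact ih (by omega) (b :: v) r [] a a' (by simp at hl ⊢; omega) hty ha ha'
        · have e : ∀ a : W J, b :: (v ++ (List.replicate (r + 1) a ++ κ)).dropLast =
              (b :: v) ++ (List.replicate (r + 1) a ++ κ.dropLast) := by
            intro a
            rw [List.dropLast_append_of_ne_nil (by simp), List.dropLast_append_of_ne_nil hκ]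
            rfl
          rw [e, e]
          have hκl : κ.length ≠ 0 := fun h => hκ (List.length_eq_zero_iff.1 h)
          refine ih (by omega) (b :: v) (r + 1) κ.dropLast a a'
            (by simp [List.length_dropLast] at hl ⊢; omega) ?_ ha ha'
          have h1 := (good hJ hch (a :: κ)).1
          have h2 := (good hJ hch (a' :: κ)).1
          rw [List.dropLast_cons_of_ne_nil hκ] at h1 h2
          rw [← h1, ← h2]
          exact ty_dropLast hty
      have hne : ∀ a : W J, v ++ (List.replicate (r + 1) a ++ κ) ≠ [] := by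
        intro a h
        simp [List.replicate_succ] at h
      have hhead : (v ++ (List.replicate (r + 1) a ++ κ)).head? = some b ↔
          (v ++ (List.replicate (r + 1) a' ++ κ)).head? = some b := by
        match v with
        | [] =>
          have e1 : b ≠ a := by
            rintro rfl; exact ha rfl
          have e2 : b ≠ a' := by
            rintro rfl; exact ha' rfl
          simp [List.replicate_succ, e1.symm, e2.symm]
        | x :: v => simp
      by_cases hh : (v ++ (List.replicate (r + 1) a ++ κ)).head? = some b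
      · obtain ⟨d, u, h2, h3⟩ := tw_head ch b hh
        obtain ⟨d', u', h2', h3'⟩ := tw_head ch b (hhead.1 hh)
        rw [List.cons_append, List.cons_append, h3, h3']
        rw [h2, h2'] at hw
        exact ty_rep hw
      · have hh' := fun h => hh (hhead.2 h)
        rw [List.cons_append, List.cons_append,
          (nx_spec hJ hch b (hne a) hh (good hJ hch _) (good hJ hch _)).1,
          (nx_spec hJ hch b (hne a') hh' (good hJ hch _) (good hJ hch _)).1, hw, hdl]
        have e : (v ++ (List.replicate (r + 1) a ++ κ)).length =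
            (v ++ (List.replicate (r + 1) a' ++ κ)).length := by simp
        rw [← e]
        apply hpl _ _ _ _ _ e
        simp at hl ⊢; omega

theorem tw_agree {ch' : List (W J) → Ty L → Ty L → ℕ → Ty L} (k : ℕ)
    (h : ∀ w P P' ℓ, w.length < k → ch w P P' ℓ = ch' w P P' ℓ) : ∀ n, n ≤ k →
    ∀ w : List (W J), w.length ≤ n → tw ch w = tw ch' w := by
  intro n
  induction n with
  | zero =>
    intro _ w hw
    have : w = [] := List.length_eq_zero_iff.1 (by omega)
    subst this
    rw [tw_nil, tw_nil]
  | succ n ih =>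
    intro hn w hw
    match w, hw with
    | [], _ => rw [tw_nil, tw_nil]
    | b :: w, hw =>
      by_cases hw0 : w = []
      · subst hw0
        rw [tw_one, tw_one]
      · rw [tw_cons ch b hw0, tw_cons ch' b hw0, ih (by omega) w (by simpa using hw),
          ih (by omega) (b :: w.dropLast) (by
            have : w.length ≠ 0 := fun h => hw0 (List.length_eq_zero_iff.1 h)
            simp [List.length_dropLast] at hw ⊢; omega)]
        congr 1
        unfold nx
        rw [h]
        simp at hw; omega

/-- Every word of the old structure is realized on top of a realized word. -/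
theorem realize (hJ : Hom J) (hch : Adm ch) (u : List B) (w0 : List (W J)) (u0 : List B)
    (h0 : ty J (tw ch w0) = ty J u0) :
    ∃ w : List (W J), w.length = u.length ∧ ty J (tw ch (w ++ w0)) = ty J (u ++ u0) := by
  induction u with
  | nil => exact ⟨[], rfl, h0⟩
  | cons d u ih =>
    obtain ⟨w, hw, h⟩ := ih
    obtain ⟨d', hd'⟩ := hJ _ _ h.symm d
    obtain ⟨b, hb⟩ := adeq_all hJ hch (w ++ w0) d'
    exact ⟨b :: w, by simp [hw], by rw [List.cons_append, hb, ← hd']; rfl⟩

/-- Enumeration of the amalgams. -/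
theorem exists_en [Countable B] (P P' : Ty L) : ∃ e : ℕ → Ty L,
    (Cand J P P').Nonempty → Cand J P P' = Set.range e := by
  by_cases h : (Cand J P P').Nonempty
  · have hc : (Cand J P P').Countable := by
      refine (Set.countable_range (fun p : List B × B => ty J (p.2 :: p.1))).mono ?_
      rintro Q ⟨c, d, -, -, h, -⟩
      exact ⟨(c, d), h⟩
    obtain ⟨e, he⟩ := hc.exists_eq_range h
    exact ⟨e, fun _ => he⟩
  · exact ⟨fun _ => [], fun h' => absurd h' h⟩

variable (J) in
noncomputable def en [Countable B] (P P' : Ty L) : ℕ → Ty L := (exists_en (J := J) P P').choose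

theorem en_spec [Countable B] {P P' : Ty L} (h : (Cand J P P').Nonempty) :
    Cand J P P' = Set.range (en J P P') := (exists_en (J := J) P P').choose_spec h

/-- A configuration with freedom. -/
structure Fr (J : Interp L B) where
  hJ : Hom J
  vc : List B
  ac : B
  r : ℕ
  κc : List B
  d1 : B
  d2 : B
  hκ : κc.head? ≠ some ac
  hv : vc.getLast? ≠ some ac
  hka : ¬ King J ac
  hk1 : ¬ King J d1
  h1 : (vc ++ (List.replicate (r + 1) ac ++ κc)).head? ≠ some d1
  h2 : (vc ++ (List.replicate (r + 1) ac ++ κc)).head? ≠ some d2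
  hs : ty J (d1 :: (vc ++ (List.replicate (r + 1) ac ++ κc))).dropLast =
    ty J (d2 :: (vc ++ (List.replicate (r + 1) ac ++ κc))).dropLast
  hne : ty J (d1 :: (vc ++ (List.replicate (r + 1) ac ++ κc))) ≠
    ty J (d2 :: (vc ++ (List.replicate (r + 1) ac ++ κc)))

namespace Fr

variable (C : Fr J)

def c0 : List B := C.vc ++ (List.replicate (C.r + 1) C.ac ++ C.κc)

def P0 : Ty L := ty J C.c0
def P1 : Ty L := ty J (C.d1 :: C.c0).dropLast
def Q1 : Ty L := ty J (C.d1 :: C.c0)
def Q2 : Ty L := ty J (C.d2 :: C.c0)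

theorem Q1_cand : C.Q1 ∈ Cand J C.P0 C.P1 := ⟨C.c0, C.d1, rfl, C.h1, rfl, rfl⟩
theorem Q2_cand : C.Q2 ∈ Cand J C.P0 C.P1 := ⟨C.c0, C.d2, rfl, C.h2, rfl, C.hs.symm⟩

theorem Q_ne : C.Q1 ≠ C.Q2 := C.hne

def k : ℕ := C.c0.length

theorem k_eq : C.k = C.vc.length + (C.r + 1) + C.κc.length := by
  unfold k c0
  simp
  omega

open Classical in
/-- The special choice function. -/
noncomputable def chS [Countable B] (cd : List (W J) → ℕ) :
    List (W J) → Ty L → Ty L → ℕ → Ty L := fun w P P' ℓ =>
  if w.length = C.k ∧ P = C.P0 ∧ P' = C.P1 then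
    (if (Nat.unpair ℓ).1 = 0 then (if (Nat.unpair ℓ).2 = cd w then C.Q1 else C.Q2)
      else en J P P' ((Nat.unpair ℓ).1 - 1))
  else en J P P' ℓ

variable [Countable B] (cd : List (W J) → ℕ)

theorem chS_adm : Adm (C.chS cd) where
  mem := by
    intro w P P' ℓ hne
    have he := en_spec hne
    unfold chS
    split_ifs with h1 h2 h3
    · rw [h1.2.1, h1.2.2]; exact C.Q1_cand
    · rw [h1.2.1, h1.2.2]; exact C.Q2_cand
    · rw [he]; exact ⟨_, rfl⟩
    · rw [he]; exact ⟨_, rfl⟩
  surj := by
    intro w P P' Q hQ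
    have he := en_spec ⟨Q, hQ⟩
    have hQ' := hQ
    rw [he] at hQ'
    obtain ⟨j, hj⟩ := hQ'
    unfold chS
    by_cases h : w.length = C.k ∧ P = C.P0 ∧ P' = C.P1
    · refine ⟨Nat.pair (j + 1) 0, ?_⟩
      rw [if_pos h, Nat.unpair_pair, if_neg (by simp)]
      simpa using hj
    · exact ⟨j, by rw [if_neg h]; exact hj⟩

theorem chS_pl : Pl (C.chS cd) C.k := by
  intro w w' P P' ℓ h1 h2
  unfold chS
  rw [if_neg (by omega), if_neg (by omega)]

theorem chS_short (cd' : List (W J) → ℕ) (w : List (W J)) (P P' : Ty L) (ℓ : ℕ)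
    (h : w.length < C.k) : C.chS cd w P P' ℓ = C.chS cd' w P P' ℓ := by
  unfold chS
  rw [if_neg (by omega), if_neg (by omega)]

/-- Words of the shape of `c0`. -/
def wd (M : Type) (r : ℕ) (v : List M) (a : M) (κ : List M) : List M :=
  v ++ (List.replicate (r + 1) a ++ κ)

variable {cd}

theorem val_last {v κ : List (W J)} {a : W J} (hv : v.length = C.vc.length)
    (hκ : κ.length = C.κc.length)
    (h : ty J (tw (C.chS cd) (wd _ C.r v a κ)) = C.P0) : v.getLast? ≠ some a := by
  intro hl
  rcases List.eq_nil_or_concat v with h0 | ⟨v', x, h0⟩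
  · subst h0; simp at hl
  · rw [List.concat_eq_append] at h0
    subst h0
    have hx : x = a := by simpa using hl
    subst hx
    rcases List.eq_nil_or_concat C.vc with h3 | ⟨v'', y, h3⟩
    · rw [h3] at hv; simp at hv
    · rw [List.concat_eq_append] at h3
      have hy : y ≠ C.ac := by
        rintro rfl
        apply C.hv
        rw [h3]; simp
      obtain ⟨u, hu, hu'⟩ := tw_suffix (C.chS cd) v' (x :: (List.replicate (C.r + 1) x ++ κ))
      have e1 : wd _ C.r (v' ++ [x]) x κ = v' ++ (x :: (List.replicate (C.r + 1) x ++ κ)) := by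
        simp [wd]
      have e2 : C.c0 = v'' ++ (y :: (List.replicate (C.r + 1) C.ac ++ C.κc)) := by
        rw [c0, h3]; simp
      rw [e1, P0, e2, hu'] at h
      have h4 := ty_suffix (by rw [hu]; rw [h3] at hv; simpa using hv) h
      obtain ⟨d, w, h5, h6⟩ := tw_head (C.chS cd) x (w := List.replicate (C.r + 1) x ++ κ) rfl
      rw [h6] at h4
      have h7 : ty J (d :: d :: w) = ty J (y :: C.ac :: (List.replicate C.r C.ac ++ C.κc)) := h4
      exact hy ((ty_eq_iff h7).1 rfl)

theorem val_base {v κ : List (W J)} {a : W J} (hv : v.length = C.vc.length)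
    (hκ : κ.length = C.κc.length)
    (h : ty J (tw (C.chS cd) (wd _ C.r v a κ)) = C.P0) :
    ty J (tw (C.chS cd) (a :: κ)) = ty J (C.ac :: C.κc) := by
  have e1 : wd _ C.r v a κ = (v ++ List.replicate C.r a) ++ (a :: κ) := by
    simp [wd, List.replicate_succ']
  have e2 : C.c0 = (C.vc ++ List.replicate C.r C.ac) ++ (C.ac :: C.κc) := by
    simp [c0, List.replicate_succ']
  obtain ⟨u, hu, hu'⟩ := tw_suffix (C.chS cd) (v ++ List.replicate C.r a) (a :: κ)
  rw [e1, P0, e2, hu'] at h
  exact ty_suffix (by rw [hu]; simp [hv]) h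

theorem wd_ne {M : Type} (r : ℕ) (v : List M) (a : M) (κ : List M) : wd M r v a κ ≠ [] := by
  intro h
  simp [wd, List.replicate_succ] at h

theorem wd_len {M : Type} (r : ℕ) (v : List M) (a : M) (κ : List M) :
    (wd M r v a κ).length = v.length + (r + 1) + κ.length := by
  simp [wd]; omega

theorem wd_head {M : Type} {r : ℕ} {v : List M} {a a' b : M} {κ : List M} (hb : b ≠ a)
    (hb' : b ≠ a') : (wd M r v a κ).head? = some b ↔ (wd M r v a' κ).head? = some b := by
  unfold wd
  match v with
  | [] => simp [List.replicate_succ, hb.symm, hb'.symm]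
  | x :: v => simp

/-- Rows of elements with equal codes agree. -/
theorem row_same {v κ : List (W J)} {a a' b : W J} (hv : v.length = C.vc.length)
    (hκ : κ.length = C.κc.length)
    (ha : ty J (tw (C.chS cd) (wd _ C.r v a κ)) = C.P0)
    (ha' : ty J (tw (C.chS cd) (wd _ C.r v a' κ)) = C.P0)
    (hcd : cd (wd _ C.r v a κ) = cd (wd _ C.r v a' κ)) (hb : b ≠ a) (hb' : b ≠ a')
    (h : ty J (tw (C.chS cd) (b :: wd _ C.r v a κ)) = C.Q1) :
    ty J (tw (C.chS cd) (b :: wd _ C.r v a' κ)) = C.Q1 := by
  have hadm := C.chS_adm cd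
  have hl : (wd _ C.r v a κ).length = C.k := by rw [wd_len, k_eq, hv, hκ]
  have hl' : (wd _ C.r v a' κ).length = C.k := by rw [wd_len, k_eq, hv, hκ]
  have hh : (wd _ C.r v a κ).head? ≠ some b := by
    intro hh
    obtain ⟨d, u, h5, h6⟩ := tw_head (C.chS cd) b hh
    rw [h6] at h
    have h1 := C.h1
    have e : C.vc ++ (List.replicate (C.r + 1) C.ac ++ C.κc) = C.c0 := rfl
    rw [e] at h1
    have h7 : ty J (d :: d :: u) = ty J (C.d1 :: C.c0) := h
    match hc : C.c0 with
    | [] =>
      rw [hc] at h7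
      simpa using len_of_ty h7
    | x :: c =>
      rw [hc] at h7 h1
      have := (ty_eq_iff h7).1 rfl
      subst this
      simp at h1
  have hh' := fun h => hh ((wd_head hb hb').2 h)
  have e1 := (nx_spec C.hJ hadm b (wd_ne _ _ _ _) hh (good C.hJ hadm _) (good C.hJ hadm _)).1
  have e2 := (nx_spec C.hJ hadm b (wd_ne _ _ _ _) hh' (good C.hJ hadm _) (good C.hJ hadm _)).1
  have hdl : ty J (tw (C.chS cd) (b :: (wd _ C.r v a κ).dropLast)) = C.P1 := by
    have h1 := (good C.hJ hadm (b :: wd _ C.r v a κ)).1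
    rw [List.dropLast_cons_of_ne_nil (wd_ne _ _ _ _)] at h1
    rw [← h1]
    exact ty_dropLast (I := J) (I' := J) h
  have hlast : ∀ x : W J, b ≠ x → v.getLast? ≠ some x → (b :: v).getLast? ≠ some x := by
    intro x hx h
    match v with
    | [] => simpa using hx
    | y :: v => rw [List.getLast?_cons_cons]; exact h
  have hl1 := hlast a hb (C.val_last hv hκ ha)
  have hl2 := hlast a' hb' (C.val_last hv hκ ha')
  have hb1 := (C.val_base hv hκ ha).trans (C.val_base hv hκ ha').symm
  have hdl' : ty J (tw (C.chS cd) (b :: (wd _ C.r v a' κ).dropLast)) = C.P1 := by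
    rw [← hdl]
    by_cases hκ0 : κ = []
    · subst hκ0
      have e : ∀ a : W J, b :: (wd _ C.r v a []).dropLast =
          (b :: v) ++ (List.replicate C.r a ++ []) := by
        intro a
        rw [wd, List.append_nil, List.append_nil, List.replicate_succ', ← List.append_assoc,
          List.dropLast_concat]
        rfl
      rw [e, e]
      refine (det C.hJ hadm C.k (C.chS_pl cd) C.k le_rfl (b :: v) C.r [] a a' ?_ hb1 hl1
        hl2).symm
      rw [k_eq]; simp; omega
    · have e : ∀ a : W J, b :: (wd _ C.r v a κ).dropLast =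
          (b :: v) ++ (List.replicate (C.r + 1) a ++ κ.dropLast) := by
        intro a
        rw [wd, List.dropLast_append_of_ne_nil (by simp), List.dropLast_append_of_ne_nil hκ0]
        rfl
      rw [e, e]
      have hκl : κ.length ≠ 0 := fun h => hκ0 (List.length_eq_zero_iff.1 h)
      refine (det C.hJ hadm C.k (C.chS_pl cd) C.k le_rfl (b :: v) (C.r + 1) κ.dropLast a a' ?_ ?_
        hl1 hl2).symm
      · rw [k_eq]; simp [List.length_dropLast]; omega
      · have h1 := (good C.hJ hadm (a :: κ)).1
        have h2 := (good C.hJ hadm (a' :: κ)).1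
        rw [List.dropLast_cons_of_ne_nil hκ0] at h1 h2
        rw [← h1, ← h2]
        exact ty_dropLast hb1
  rw [e2, ha', hdl', hl']
  rw [e1, ha, hdl, hl] at h
  rw [← h]
  unfold chS
  rw [if_pos (show (wd (W J) C.r v a' κ).length = C.k ∧ C.P0 = C.P0 ∧ C.P1 = C.P1 from
    ⟨hl', rfl, rfl⟩), if_pos (show (wd (W J) C.r v a κ).length = C.k ∧ C.P0 = C.P0 ∧ C.P1 = C.P1
    from ⟨hl, rfl, rfl⟩), hcd]

/-- Rows of elements with different codes differ. -/
theorem row_diff {v κ : List (W J)} {a a' : W J} (hv : v.length = C.vc.length)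
    (hκ : κ.length = C.κc.length)
    (ha : ty J (tw (C.chS cd) (wd _ C.r v a κ)) = C.P0)
    (ha' : ty J (tw (C.chS cd) (wd _ C.r v a' κ)) = C.P0)
    (hcd : cd (wd _ C.r v a κ) ≠ cd (wd _ C.r v a' κ)) :
    ∃ b, b ≠ a ∧ b ≠ a' ∧ ty J (tw (C.chS cd) (b :: wd _ C.r v a κ)) = C.Q1 ∧
      ty J (tw (C.chS cd) (b :: wd _ C.r v a' κ)) ≠ C.Q1 := by
  have hadm := C.chS_adm cd
  have hl : (wd _ C.r v a κ).length = C.k := by rw [wd_len, k_eq, hv, hκ]
  have hl' : (wd _ C.r v a' κ).length = C.k := by rw [wd_len, k_eq, hv, hκ]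
  have hl0 : C.k ≠ 0 := by rw [k_eq]; omega
  have hk : C.P0 = ty J C.c0 := rfl
  have hc0 : C.c0 ≠ [] := by
    intro h
    apply hl0
    rw [k, h]; rfl
  obtain ⟨d, hd⟩ := C.hJ _ _ (ha.symm) C.d1
  have hd1 : ty J (d :: tw (C.chS cd) (wd _ C.r v a κ)).dropLast = C.P1 :=
    (ty_dropLast hd).symm
  obtain ⟨d', hd'⟩ := ty_lift C.hJ hadm (wd_ne C.r v a κ) d
  have hsing : ty J [d'] = ty J [C.d1] := by
    have h3 : ty J (d' :: tw (C.chS cd) (wd _ C.r v a κ).dropLast) = C.P1 :=
      hd'.symm.trans hd1
    rw [P1, List.dropLast_cons_of_ne_nil hc0] at h3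
    exact ty_single h3
  have hdk : ¬ King J d' := fun hk => C.hk1 (king_of_ty hsing.symm hk)
  have hhd : (tw (C.chS cd) (wd _ C.r v a κ)).head? ≠ some d := by
    intro h
    match hc : tw (C.chS cd) (wd _ C.r v a κ), h with
    | x :: u, h =>
      have hx : x = d := by simpa using h
      subst hx
      rw [hc] at hd
      have h1 := C.h1
      have e : C.vc ++ (List.replicate (C.r + 1) C.ac ++ C.κc) = C.c0 := rfl
      rw [e] at h1
      match hc0' : C.c0 with
      | [] => exact hc0 hc0'
      | y :: c =>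
        rw [hc0'] at hd h1
        have := (ty_eq_iff hd).2 rfl
        subst this
        simp at h1
  have hdh : (tw (C.chS cd) (wd _ C.r v a κ).dropLast).head? ≠ some d' := by
    intro h
    match hc : wd _ C.r v a κ with
    | [] => exact wd_ne _ _ _ _ hc
    | [x] =>
      rw [hc, List.dropLast_singleton, tw_nil] at h
      simp at h
    | x :: x2 :: w2 =>
      rw [hc] at h hd' hhd
      obtain ⟨z, hz⟩ := tw_tail (C.chS cd) x (x2 :: w2)
      obtain ⟨y, hy⟩ := tw_tail (C.chS cd) x ((x2 :: w2).dropLast)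
      have e0 : (x :: x2 :: w2).dropLast = x :: (x2 :: w2).dropLast := rfl
      rw [e0, hy] at h
      rw [e0, hy, hz, List.dropLast_cons_of_ne_nil (List.cons_ne_nil _ _),
        List.dropLast_cons_of_ne_nil (tw_ne _ (List.cons_ne_nil _ _))] at hd'
      have hyd : y = d' := by simpa using h
      subst hyd
      have := (ty_eq_iff hd').2 rfl
      subst this
      apply hhd
      rw [hz]; rfl
  obtain ⟨b, hbF, hbh, hbk, hbt, hbl⟩ := adeq C.hJ hadm _ (wd _ C.r v a κ).dropLast le_rfl d' hdk
    hdh (a :: a' :: (wd _ C.r v a κ ++ wd _ C.r v a' κ))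
    (fun _ => Nat.pair 0 (cd (wd _ C.r v a κ))) C.k
  have hba : b ≠ a := by
    rintro rfl; exact hbF (by simp)
  have hba' : b ≠ a' := by
    rintro rfl; exact hbF (by simp)
  have hbw : (wd _ C.r v a κ).head? ≠ some b := by
    intro h
    exact hbF (List.mem_cons_of_mem _ (List.mem_cons_of_mem _
      (List.mem_append_left _ (List.mem_of_mem_head? h))))
  have hbw' : (wd _ C.r v a' κ).head? ≠ some b := by
    intro h
    exact hbF (List.mem_cons_of_mem _ (List.mem_cons_of_mem _
      (List.mem_append_right _ (List.mem_of_mem_head? h))))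
  have hlab : lab b C.k = Nat.pair 0 (cd (wd _ C.r v a κ)) :=
    hbl C.k (by rw [List.length_dropLast, hl]; omega) le_rfl
  have e1 := (nx_spec C.hJ hadm b (wd_ne _ _ _ _) hbw (good C.hJ hadm _) (good C.hJ hadm _)).1
  have e2 := nx_spec C.hJ hadm b (wd_ne _ _ _ _) hbw' (good C.hJ hadm _) (good C.hJ hadm _)
  have hP : ty J (tw (C.chS cd) (b :: (wd _ C.r v a κ).dropLast)) = C.P1 := by
    rw [hbt, ← hd', hd1]
  refine ⟨b, hba, hba', ?_, ?_⟩
  · rw [e1, ha, hP, hl, hlab]
    unfold chS
    rw [if_pos ⟨hl, rfl, rfl⟩, Nat.unpair_pair]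
    simp
  · intro hQ
    have hP' : ty J (tw (C.chS cd) (b :: (wd _ C.r v a' κ).dropLast)) = C.P1 := by
      have h1 := (good C.hJ hadm (b :: wd _ C.r v a' κ)).1
      rw [List.dropLast_cons_of_ne_nil (wd_ne _ _ _ _)] at h1
      rw [← h1]
      exact ty_dropLast (I := J) (I' := J) hQ
    rw [e2.1, ha', hP', hl', hlab] at hQ
    unfold chS at hQ
    rw [if_pos ⟨hl', rfl, rfl⟩, Nat.unpair_pair] at hQ
    simp only [if_true] at hQ
    rw [if_neg hcd] at hQ
    exact C.Q_ne hQ.symm

end Fr

end Pool.Agent.H667.FI
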