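import Pool.Agent.H667.FI.Tr
import Pool.Graph.R_seed8.H579R3.SB

set_option autoImplicit false

/-!
The dichotomy for Borel classes of structures with the exchange property: two points in the same
orbit are exchanged by an automorphism which fixes all the other points.
-/

namespace Pool.Agent.H667.FI

open FirstOrder Set MeasureTheory
open Pool.Agent.H565R2.FO2 (Interp Code toI ofI toI_ofI Iso meas_toI)
open Pool.Agent.H565R2.LO2 (PerfK)

variable {L : FirstOrder.Language.{0, 0}}

/-- The transposition of `x` and `y` is an automorphism. -/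
def Sw (I : Interp L ℕ) (x y : ℕ) : Prop := IsAut I (Equiv.swap x y)

theorem aut_one (I : Interp L ℕ) : IsAut I (Equiv.refl ℕ) := fun _ _ _ => Iff.rfl

theorem aut_trans {I : Interp L ℕ} {g h : ℕ ≃ ℕ} (hg : IsAut I g) (hh : IsAut I h) :
    IsAut I (g.trans h) := fun n R v => (hg n R v).trans (hh n R _)

theorem aut_symm {I : Interp L ℕ} {g : ℕ ≃ ℕ} (hg : IsAut I g) : IsAut I g.symm := by
  intro n R v
  have := hg n R fun k => g.symm (v k)
  simpa using this.symm

theorem sw_refl (I : Interp L ℕ) (x : ℕ) : Sw I x x := by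
  unfold Sw
  rw [Equiv.swap_self]; exact aut_one I

theorem sw_symm {I : Interp L ℕ} {x y : ℕ} (h : Sw I x y) : Sw I y x := by
  unfold Sw
  rw [Equiv.swap_comm]; exact h

theorem sw_trans {I : Interp L ℕ} {x y z : ℕ} (h1 : Sw I x y) (h2 : Sw I y z) : Sw I x z := by
  by_cases hxy : x = y
  · subst hxy; exact h2
  by_cases hxz : x = z
  · subst hxz; exact sw_refl I _
  have h3 : (Equiv.swap y z).trans ((Equiv.swap x y).trans (Equiv.swap y z)) = Equiv.swap x z := by
    have := Equiv.swap_mul_swap_mul_swap hxy hxz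
    rw [Equiv.swap_comm x z, ← this]
    rfl
  unfold Sw
  rw [← h3]
  exact aut_trans h2 (aut_trans h1 h2)

/-- Permutations inside the classes are automorphisms. -/
theorem aut_of_sw {I : Interp L ℕ} (g : ℕ ≃ ℕ) (hg : ∀ x, Sw I x (g x)) : IsAut I g := by
  have key : ∀ s : Finset ℕ, ∃ h : ℕ ≃ ℕ, IsAut I h ∧ (∀ z, Sw I z (h z)) ∧
      ∀ z ∈ s, h z = g z := by
    intro s
    induction s using Finset.induction_on with
    | empty => exact ⟨Equiv.refl ℕ, aut_one I, fun z => sw_refl I z, by simp⟩
    | insert x s hx ih =>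
      obtain ⟨h, h1, h2, h3⟩ := ih
      have h4 : Sw I (h x) (g x) := sw_trans (sw_symm (h2 x)) (hg x)
      refine ⟨h.trans (Equiv.swap (h x) (g x)), aut_trans h1 h4, fun z => ?_, fun z hz => ?_⟩
      · rw [Equiv.trans_apply]
        by_cases e1 : h z = h x
        · rw [e1, Equiv.swap_apply_left]
          have : z = x := h.injective e1
          subst this
          exact hg z
        · by_cases e2 : h z = g x
          · rw [e2, Equiv.swap_apply_right]
            exact sw_trans (e2 ▸ h2 z) (sw_symm h4)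
          · rw [Equiv.swap_apply_of_ne_of_ne e1 e2]
            exact h2 z
      · rw [Equiv.trans_apply]
        rcases Finset.mem_insert.1 hz with rfl | hz'
        · rw [Equiv.swap_apply_left]
        · have e1 : h z ≠ h x := by
            intro e
            have : z = x := h.injective e
            subst this
            exact hx hz'
          have e2 : h z ≠ g x := by
            rw [h3 z hz']
            intro e
            have : z = x := g.injective e
            subst this
            exact hx hz'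
          rw [Equiv.swap_apply_of_ne_of_ne e1 e2]
          exact h3 z hz'
  intro n R v
  obtain ⟨h, h1, -, h3⟩ := key (Finset.univ.image v)
  rw [h1 n R v]
  have : (fun k => h (v k)) = fun k => g (v k) := by
    funext k
    exact h3 _ (Finset.mem_image_of_mem v (Finset.mem_univ k))
  rw [this]

/-- The function `e` enumerates every class. -/
def Enm (I : Interp L ℕ) (e : ℕ → ℕ) : Prop :=
  (∀ x y, Sw I x y → e x = e y → x = y) ∧ ∀ x n, e x = n + 1 → ∃ y, Sw I x y ∧ e y = n

theorem exists_enm (I : Interp L ℕ) : ∃ e, Enm I e := by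
  classical
  let F : ℕ → Finset ℕ := fun x => (Finset.range x).filter fun z => Sw I z x
  have hF : ∀ x z, z ∈ F x ↔ z < x ∧ Sw I z x := by
    intro x z
    simp [F]
  have hlt : ∀ x y, x < y → Sw I x y → (F x).card < (F y).card := by
    intro x y hxy hs
    apply Finset.card_lt_card
    refine Finset.ssubset_iff_of_subset (fun z hz => ?_) |>.2 ⟨x, ?_, ?_⟩
    · rw [hF] at hz ⊢
      exact ⟨hz.1.trans hxy, sw_trans hz.2 hs⟩
    · rw [hF]; exact ⟨hxy, hs⟩
    · rw [hF]; exact fun h => lt_irrefl _ h.1
  refine ⟨fun x => (F x).card, ?_, ?_⟩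
  · intro x y hs he
    rcases lt_trichotomy x y with h | h | h
    · exact absurd he (hlt x y h hs).ne
    · exact h
    · exact absurd he.symm (hlt y x h (sw_symm hs)).ne
  · intro x n hn
    have hn' : (F x).card = n + 1 := hn
    have hne : (F x).Nonempty := by
      rw [← Finset.card_pos]; omega
    let y := (F x).max' hne
    have hy : y ∈ F x := Finset.max'_mem _ _
    have hy' := (hF x y).1 hy
    refine ⟨y, sw_symm hy'.2, ?_⟩
    have h1 : F x = insert y (F y) := by
      ext z
      rw [Finset.mem_insert, hF y]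
      constructor
      · intro hz
        rcases (Finset.le_max' (F x) z hz).lt_or_eq with h | h
        · exact Or.inr ⟨h, sw_trans ((hF x z).1 hz).2 (sw_symm hy'.2)⟩
        · exact Or.inl h
      · rintro (rfl | ⟨h1, h2⟩)
        · exact hy
        · rw [hF]; exact ⟨h1.trans hy'.1, sw_trans h2 hy'.2⟩
    have h2 : (F x).card = (F y).card + 1 := by
      rw [h1]
      refine Finset.card_insert_of_notMem ?_
      rw [hF]; exact fun h => lt_irrefl _ h.1
    show (F y).card = n
    omega

theorem enm_le {I : Interp L ℕ} {e : ℕ → ℕ} (he : Enm I e) (x : ℕ) : ∀ k, k ≤ e x →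
    ∃ y, Sw I x y ∧ e y = k := by
  have key : ∀ m k, k + m = e x → ∃ y, Sw I x y ∧ e y = k := by
    intro m
    induction m with
    | zero => intro k hk; exact ⟨x, sw_refl I x, by omega⟩
    | succ m ih =>
      intro k hk
      obtain ⟨y, hy, hy'⟩ := ih (k + 1) (by omega)
      obtain ⟨z, hz, hz'⟩ := he.2 y k hy'
      exact ⟨z, sw_trans hy hz, hz'⟩
  intro k hk
  exact key (e x - k) k (by omega)

/-- Two enumerations take the same values on a class. -/
theorem enm_mem {I : Interp L ℕ} {e e' : ℕ → ℕ} (he : Enm I e) (he' : Enm I e') (x : ℕ) :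
    ∃ y, Sw I x y ∧ e' y = e x := by
  classical
  by_contra hcon
  push Not at hcon
  have hlt : ∀ y, Sw I x y → e' y < e x := by
    intro y hy
    by_contra h
    push Not at h
    obtain ⟨z, hz, hz'⟩ := enm_le he' y (e x) h
    exact hcon z (sw_trans hy hz) hz'
  choose f hf using fun k : Fin (e x + 1) => enm_le he x k.1 (by omega)
  have hinj : Function.Injective fun k : Fin (e x + 1) =>
      (⟨e' (f k), hlt _ (hf k).1⟩ : Fin (e x)) := by
    intro k l hkl
    have h1 : e' (f k) = e' (f l) := congrArg Fin.val hkl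
    have h2 := he'.1 _ _ (sw_trans (sw_symm (hf k).1) (hf l).1) h1
    apply Fin.ext
    rw [← (hf k).2, ← (hf l).2, h2]
  have := Fintype.card_le_of_injective _ hinj
  simp at this

/-- Enumerations are unique up to an automorphism. -/
theorem enm_unique {I : Interp L ℕ} {e e' : ℕ → ℕ} (he : Enm I e) (he' : Enm I e') :
    ∃ g : ℕ ≃ ℕ, IsAut I g ∧ ∀ x, e' (g x) = e x := by
  choose f hf1 hf2 using fun x => enm_mem he he' x
  choose f' hf1' hf2' using fun x => enm_mem he' he x
  let g : ℕ ≃ ℕ :=
    { toFun := f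
      invFun := f'
      left_inv := by
        intro x
        apply he.1 _ _ (sw_symm (sw_trans (hf1 x) (hf1' (f x))))
        rw [hf2', hf2]
      right_inv := by
        intro x
        apply he'.1 _ _ (sw_symm (sw_trans (hf1' x) (hf1 (f' x))))
        rw [hf2, hf2'] }
  exact ⟨g, aut_of_sw g hf1, hf2⟩

/-- With the exchange property, the enumerated structure is rigid. -/
theorem enm_rigid {I : Interp L ℕ} {e : ℕ → ℕ} (hI : Exch I) (he : Enm I e) {g : ℕ ≃ ℕ}
    (hg : IsAut I g) (hge : ∀ x, e (g x) = e x) (x : ℕ) : g x = x :=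
  (he.1 _ _ (hI g hg x) (hge x).symm).symm

theorem sw_map {I I' : Interp L ℕ} (g : ℕ ≃ ℕ)
    (hg : ∀ n (R : L.Relations n) (v : Fin n → ℕ), I n R v ↔ I' n R (fun k => g (v k)))
    (x y : ℕ) : Sw I x y ↔ Sw I' (g x) (g y) := by
  have e : ∀ z, Equiv.swap (g x) (g y) (g z) = g (Equiv.swap x y z) := by
    intro z
    by_cases h1 : z = x
    · subst h1; rw [Equiv.swap_apply_left, Equiv.swap_apply_left]
    · by_cases h2 : z = y
      · subst h2; rw [Equiv.swap_apply_right, Equiv.swap_apply_right]
      · rw [Equiv.swap_apply_of_ne_of_ne h1 h2, Equiv.swap_apply_of_ne_of_ne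
          (fun h => h1 (g.injective h)) (fun h => h2 (g.injective h))]
  constructor
  · intro h n R v
    have := h n R fun k => g.symm (v k)
    rw [hg, hg] at this
    simp only [← e, Equiv.apply_symm_apply] at this
    exact this
  · intro h n R v
    rw [hg, hg]
    have := h n R fun k => g (v k)
    simp only [e] at this
    exact this

section Dich

variable [∀ n, Countable (L.Relations n)]

/-- Codes of enumerated structures. -/
abbrev EC (L : FirstOrder.Language.{0, 0}) : Type := Code L × (ℕ → ℕ)

instance polish_code : PolishSpace (Code L) := by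
  have h1 : SecondCountableTopology (Code L) := inferInstance
  have h2 : TopologicalSpace.IsCompletelyMetrizableSpace (Code L) := inferInstance
  exact {}

def EK (K : Set (Code L)) : Set (EC L) := {q | q.1 ∈ K ∧ Enm (toI q.1) q.2}

theorem meas_sw (x y : ℕ) : Measurable fun c : Code L => Sw (toI c) x y := by
  unfold Sw IsAut
  refine Measurable.forall fun n => Measurable.forall fun R => Measurable.forall fun v => ?_
  exact (meas_toI R v).iff (meas_toI R _)

theorem meas_EK {K : Set (Code L)} (hK : MeasurableSet K) : MeasurableSet (EK K) := by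
  have h1 : ∀ x, Measurable fun q : EC L => q.2 x := fun x =>
    (measurable_pi_apply x).comp measurable_snd
  have h2 : ∀ x y, Measurable fun q : EC L => Sw (toI q.1) x y := fun x y =>
    (meas_sw x y).comp measurable_fst
  have h3 : ∀ x y, Measurable fun q : EC L => q.2 x = q.2 y := fun x y =>
    measurableSet_setOfPred.1 (measurableSet_eq_fun (h1 x) (h1 y))
  have h4 : ∀ x n, Measurable fun q : EC L => q.2 x = n := fun x n =>
    measurableSet_setOfPred.1 (measurableSet_eq_fun (h1 x) measurable_const)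
  have h5 : MeasurableSet {q : EC L | Enm (toI q.1) q.2} := by
    apply measurableSet_setOfPred.2
    unfold Enm
    refine Measurable.and ?_ ?_
    · exact Measurable.forall fun x => Measurable.forall fun y =>
        (h2 x y).imp ((h3 x y).imp measurable_const)
    · exact Measurable.forall fun x => Measurable.forall fun n =>
        (h4 x (n + 1)).imp (Measurable.exists fun y => (h2 x y).and (h4 y n))
  exact (measurable_fst hK).inter h5

/-- Isomorphism of enumerated structures. -/
def EIso (q q' : EC L) : Prop := ∃ g : ℕ ≃ ℕ,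
  (∀ n (R : L.Relations n) (t : Fin n → ℕ), q.1 ⟨n, R, t⟩ = q'.1 ⟨n, R, fun k => g (t k)⟩) ∧
    ∀ x, q.2 x = q'.2 (g x)

omit [∀ n, Countable (L.Relations n)] in
theorem eiso_refl (q : EC L) : EIso q q := ⟨Equiv.refl ℕ, fun _ _ _ => rfl, fun _ => rfl⟩

omit [∀ n, Countable (L.Relations n)] in
theorem eiso_symm {q q' : EC L} (h : EIso q q') : EIso q' q := by
  obtain ⟨g, h1, h2⟩ := h
  refine ⟨g.symm, fun n R t => ?_, fun x => ?_⟩
  · rw [h1]; simp
  · rw [h2]; simp

omit [∀ n, Countable (L.Relations n)] in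
theorem eiso_trans {q q' q'' : EC L} (h : EIso q q') (h' : EIso q' q'') : EIso q q'' := by
  obtain ⟨g, h1, h2⟩ := h
  obtain ⟨g', h1', h2'⟩ := h'
  refine ⟨g.trans g', fun n R t => ?_, fun x => ?_⟩
  · rw [h1, h1']; simp
  · rw [h2, h2']; simp

/-- Pairs of mutually inverse functions. -/
def PI : Set ((ℕ → ℕ) × (ℕ → ℕ)) := {p | (∀ x, p.1 (p.2 x) = x) ∧ ∀ x, p.2 (p.1 x) = x}

theorem meas_app {Y : Type} [MeasurableSpace Y] {f g : Y → ℕ → ℕ} (hf : Measurable f)
    (hg : Measurable g) (x y : ℕ) : Measurable fun p => f p (g p x) = y := by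
  have h1 : ∀ z w, Measurable fun p => f p z = w := fun z w =>
    measurableSet_setOfPred.1 (measurableSet_eq_fun ((measurable_pi_apply z).comp hf)
      measurable_const)
  have h2 : ∀ z w, Measurable fun p => g p z = w := fun z w =>
    measurableSet_setOfPred.1 (measurableSet_eq_fun ((measurable_pi_apply z).comp hg)
      measurable_const)
  have : (fun p => f p (g p x) = y) = fun p => ∃ z, g p x = z ∧ f p z = y := by
    funext p
    simp
  rw [this]
  exact Measurable.exists fun z => (h2 x z).and (h1 z y)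

theorem meas_PI : MeasurableSet PI := by
  apply measurableSet_setOfPred.2
  refine Measurable.and ?_ ?_
  · exact Measurable.forall fun x => meas_app measurable_fst measurable_snd x x
  · exact Measurable.forall fun x => meas_app measurable_snd measurable_fst x x

/-- The transported enumerated structure. -/
def trp (p : ((ℕ → ℕ) × (ℕ → ℕ)) × EC L) : EC L :=
  (fun i => p.2.1 ⟨i.1, i.2.1, fun k => p.1.2 (i.2.2 k)⟩, fun x => p.2.2 (p.1.2 x))

omit [∀ n, Countable (L.Relations n)] in
theorem meas_trp : Measurable (trp (L := L)) := by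
  have hf2 : Measurable fun p : ((ℕ → ℕ) × (ℕ → ℕ)) × EC L => p.1.2 :=
    measurable_snd.comp measurable_fst
  have h2 : ∀ z w, Measurable fun p : ((ℕ → ℕ) × (ℕ → ℕ)) × EC L => p.1.2 z = w := fun z w =>
    measurableSet_setOfPred.1 (measurableSet_eq_fun ((measurable_pi_apply z).comp hf2)
      measurable_const)
  refine Measurable.prodMk ?_ ?_
  · rw [measurable_pi_iff]
    rintro ⟨n, R, t⟩
    apply measurable_to_bool
    have : (fun p : ((ℕ → ℕ) × (ℕ → ℕ)) × EC L =>
        p.2.1 ⟨n, R, fun k => p.1.2 (t k)⟩) ⁻¹' {true} =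
        {p | ∃ s : Fin n → ℕ, (∀ k, p.1.2 (t k) = s k) ∧ p.2.1 ⟨n, R, s⟩ = true} := by
      ext p
      simp only [Set.mem_preimage, Set.mem_singleton_iff, Set.mem_ofPred_eq]
      constructor
      · intro h
        exact ⟨fun k => p.1.2 (t k), fun k => rfl, h⟩
      · rintro ⟨s, hs, h⟩
        have : s = fun k => p.1.2 (t k) := funext fun k => (hs k).symm
        rw [this] at h; exact h
    rw [this]
    apply measurableSet_setOfPred.2
    refine Measurable.exists fun s => (Measurable.forall fun k => h2 _ _).and ?_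
    exact (meas_toI R s).comp (measurable_fst.comp measurable_snd)
  · rw [measurable_pi_iff]
    intro x
    apply measurable_to_countable'
    intro y
    exact measurableSet_setOfPred.2 (meas_app (measurable_snd.comp measurable_snd) hf2 x y)

theorem meas_eiso {K : Set (Code L)} (hK : MeasurableSet K) (hE : ∀ c ∈ K, Exch (toI c)) :
    MeasurableSet {q : EC L × EC L | q.1 ∈ EK K ∧ q.2 ∈ EK K ∧ EIso q.1 q.2} := by
  let D : Set (((ℕ → ℕ) × (ℕ → ℕ)) × EC L) := {p | p.1 ∈ PI ∧ p.2 ∈ EK K}
  have hD : MeasurableSet D :=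
    (measurable_fst meas_PI).inter (measurable_snd (meas_EK hK))
  let F : ((ℕ → ℕ) × (ℕ → ℕ)) × EC L → EC L × EC L := fun p => (p.2, trp p)
  have hF : Measurable F := measurable_snd.prodMk meas_trp
  have hinj : Set.InjOn F D := by
    rintro ⟨⟨f, h⟩, q⟩ ⟨hp, hq⟩ ⟨⟨f', h'⟩, q'⟩ ⟨hp', hq'⟩ heq
    have e1 : q = q' := congrArg Prod.fst heq
    subst e1
    replace hp : (∀ x, f (h x) = x) ∧ ∀ x, h (f x) = x := hp
    replace hp' : (∀ x, f' (h' x) = x) ∧ ∀ x, h' (f' x) = x := hp'
    replace hq : q ∈ EK K := hq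
    have e2 : trp ((f, h), q) = trp ((f', h'), q) := congrArg Prod.snd heq
    -- the automorphism
    let g : ℕ ≃ ℕ := ⟨fun x => h' (f x), fun x => h (f' x), fun x => by
      show h (f' (h' (f x))) = x
      rw [hp'.1, hp.2], fun x => by
      show h' (f (h (f' x))) = x
      rw [hp.1, hp'.2]⟩
    have hga : IsAut (toI q.1) g := by
      intro n R v
      have := congrFun (congrArg Prod.fst e2) ⟨n, R, fun k => f (v k)⟩
      simp only [trp] at this
      unfold toI
      have e3 : (fun k => h (f (v k))) = v := funext fun k => hp.2 (v k)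
      rw [e3] at this
      rw [this]
      exact Iff.rfl
    have hge : ∀ x, q.2 (g x) = q.2 x := by
      intro x
      have := congrFun (congrArg Prod.snd e2) (f x)
      simp only [trp] at this
      rw [hp.2 x] at this
      exact this.symm
    have hid := fun x => enm_rigid (hE _ hq.1) hq.2 hga hge x
    have hf : f = f' := by
      funext x
      have : h' (f x) = x := hid x
      rw [← hp'.1 (f x), this]
    have hh : h = h' := by
      funext x
      have h1 : f' (h x) = x := by rw [← hf]; exact hp.1 x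
      rw [← hp'.2 (h x), h1]
    rw [hf, hh]
  have himg : MeasurableSet (F '' D) := hD.image_of_measurable_injOn hF hinj
  have : {q : EC L × EC L | q.1 ∈ EK K ∧ q.2 ∈ EK K ∧ EIso q.1 q.2} =
      F '' D ∩ {q | q.2 ∈ EK K} := by
    ext ⟨q, q'⟩
    constructor
    · rintro ⟨h1, h2, g, h3, h4⟩
      refine ⟨⟨((g, g.symm), q), ⟨⟨fun x => by simp, fun x => by simp⟩, h1⟩, ?_⟩, h2⟩
      show (q, trp ((⇑g, ⇑g.symm), q)) = (q, q')
      congr 1
      refine Prod.ext ?_ ?_
      · funext ⟨n, R, t⟩
        simp only [trp]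
        rw [h3]
        simp
      · funext x
        simp only [trp]
        rw [h4]; simp
    · rintro ⟨⟨⟨⟨f, h⟩, q0⟩, ⟨hp, hq0⟩, heq⟩, h2⟩
      have e1 : q0 = q := congrArg Prod.fst heq
      have e2 : trp ((f, h), q0) = q' := congrArg Prod.snd heq
      subst e1
      replace hp : (∀ x, f (h x) = x) ∧ ∀ x, h (f x) = x := hp
      refine ⟨hq0, h2, ⟨f, h, hp.2, hp.1⟩, fun n R t => ?_, fun x => ?_⟩
      · rw [← e2]
        simp only [trp, Equiv.coe_fn_mk]
        have : (fun k => h (f (t k))) = t := funext fun k => hp.2 (t k)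
        rw [this]
      · rw [← e2]
        simp only [trp, Equiv.coe_fn_mk]
        rw [hp.2 x]
  rw [this]
  exact himg.inter (measurable_snd (meas_EK hK))

/-- The class of the structures without the exchange property is analytic. -/
theorem analytic_not_exch : AnalyticSet {c : Code L | ¬ Exch (toI c)} := by
  let D : Set (((ℕ → ℕ) × (ℕ → ℕ)) × Code L) := {p | p.1 ∈ PI ∧
    (∀ n (R : L.Relations n) (v : Fin n → ℕ), toI p.2 n R v ↔
      ∃ s : Fin n → ℕ, (∀ k, p.1.1 (v k) = s k) ∧ toI p.2 n R s) ∧
    ∃ x y, p.1.1 x = y ∧ ¬ Sw (toI p.2) x y}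
  have hf1 : Measurable fun p : ((ℕ → ℕ) × (ℕ → ℕ)) × Code L => p.1.1 :=
    measurable_fst.comp measurable_fst
  have h1 : ∀ z w, Measurable fun p : ((ℕ → ℕ) × (ℕ → ℕ)) × Code L => p.1.1 z = w := fun z w =>
    measurableSet_setOfPred.1 (measurableSet_eq_fun ((measurable_pi_apply z).comp hf1)
      measurable_const)
  have hD : MeasurableSet D := by
    refine (measurable_fst meas_PI).inter ?_
    apply measurableSet_setOfPred.2
    refine Measurable.and ?_ ?_
    · refine Measurable.forall fun n => Measurable.forall fun R => Measurable.forall fun v => ?_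
      refine ((meas_toI R v).comp measurable_snd).iff (Measurable.exists fun s => ?_)
      exact (Measurable.forall fun k => h1 _ _).and ((meas_toI R s).comp measurable_snd)
    · exact Measurable.exists fun x => Measurable.exists fun y =>
        (h1 x y).and (((meas_sw x y).comp measurable_snd).not)
  have himg : AnalyticSet (Prod.snd '' D) :=
    hD.analyticSet.image_of_continuous continuous_snd
  have : {c : Code L | ¬ Exch (toI c)} = Prod.snd '' D := by
    ext c
    constructor
    · intro h
      replace h : ¬ Exch (toI c) := h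
      unfold Exch at h
      push Not at h
      obtain ⟨g, hg, x, hx⟩ := h
      refine ⟨((g, g.symm), c), ⟨⟨fun x => by simp, fun x => by simp⟩, fun n R v => ?_,
        x, g x, rfl, hx⟩, rfl⟩
      show toI c n R v ↔ _
      rw [hg n R v]
      constructor
      · intro h
        exact ⟨_, fun k => rfl, h⟩
      · rintro ⟨s, hs, h⟩
        have : s = fun k => g (v k) := funext fun k => (hs k).symm
        rw [this] at h; exact h
    · rintro ⟨⟨⟨f, h⟩, c'⟩, ⟨hp, ha, x, y, hxy, hs⟩, rfl⟩ hE
      replace hp : (∀ x, f (h x) = x) ∧ ∀ x, h (f x) = x := hp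
      replace hxy : f x = y := hxy
      replace hs : ¬ Sw (toI c') x y := hs
      subst hxy
      apply hs
      refine hE ⟨f, h, hp.2, hp.1⟩ (fun n R v => (ha n R v).trans ?_) x
      constructor
      · rintro ⟨s, hs, h⟩
        have : s = fun k => f (v k) := funext fun k => (hs k).symm
        rw [this] at h; exact h
      · intro h
        exact ⟨_, fun k => rfl, h⟩
  rw [this]
  exact himg

/-- The dichotomy for analytic classes with the exchange property. -/
theorem exch_dich (K : Set (Code L)) (hK : AnalyticSet K) (hE : ∀ c ∈ K, Exch (toI c)) :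
    (∃ g : ℕ → Code L, ∀ c ∈ K, ∃ n, Iso c (g n)) ∨ PerfK K := by
  classical
  obtain ⟨U, hKU, hUd, hU⟩ := hK.measurablySeparable (analytic_not_exch (L := L))
    (Set.disjoint_left.2 fun c hc h => h (hE c hc))
  have hE' : ∀ c ∈ U, Exch (toI c) := by
    intro c hc
    by_contra h
    exact Set.disjoint_left.1 hUd h hc
  let E : EC L → EC L → Prop := fun q q' => q = q' ∨ (q ∈ EK U ∧ q' ∈ EK U ∧ EIso q q')
  have hEq : Equivalence E := by
    refine ⟨fun q => Or.inl rfl, ?_, ?_⟩
    · rintro q q' (rfl | ⟨h1, h2, h3⟩)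
      · exact Or.inl rfl
      · exact Or.inr ⟨h2, h1, eiso_symm h3⟩
    · rintro q q' q'' (rfl | ⟨h1, h2, h3⟩) (rfl | ⟨h1', h2', h3'⟩)
      · exact Or.inl rfl
      · exact Or.inr ⟨h1', h2', h3'⟩
      · exact Or.inr ⟨h1, h2, h3⟩
      · exact Or.inr ⟨h1, h2', eiso_trans h3 h3'⟩
  have hm : MeasurableSet {q : EC L × EC L | E q.1 q.2} := by
    have : {q : EC L × EC L | E q.1 q.2} = {q | q.1 = q.2} ∪
        {q : EC L × EC L | q.1 ∈ EK U ∧ q.2 ∈ EK U ∧ EIso q.1 q.2} := by
      ext q; rfl
    rw [this]
    exact (measurableSet_eq_fun measurable_fst measurable_snd).union (meas_eiso hU hE')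
  have hKE : EK K = (Prod.fst ⁻¹' K) ∩ EK U := by
    ext q
    constructor
    · rintro ⟨h1, h2⟩
      exact ⟨h1, hKU h1, h2⟩
    · rintro ⟨h1, -, h2⟩
      exact ⟨h1, h2⟩
  have hA : AnalyticSet (EK K) := by
    rw [hKE, Set.inter_eq_iInter]
    refine AnalyticSet.iInter fun b => ?_
    cases b
    · exact (meas_EK hU).analyticSet
    · exact hK.preimage continuous_fst
  rcases Pool.Agent.H579R3.SV.silver hEq hm hA with ⟨S, hS1, hS2, hS3⟩ | ⟨h, h1, h2, h3⟩
  · left
    by_cases hne : K.Nonempty
    swap
    · rw [Set.not_nonempty_iff_eq_empty] at hne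
      exact ⟨fun _ _ => false, fun c hc => by rw [hne] at hc; exact hc.elim⟩
    have hSne : S.Nonempty := by
      obtain ⟨c, hc⟩ := hne
      obtain ⟨e, he⟩ := exists_enm (toI c)
      obtain ⟨y, hy, -⟩ := hS3 (c, e) ⟨hc, he⟩
      exact ⟨y, hy⟩
    obtain ⟨f, hf⟩ := hS2.exists_eq_range hSne
    refine ⟨fun n => (f n).1, fun c hc => ?_⟩
    obtain ⟨e, he⟩ := exists_enm (toI c)
    obtain ⟨y, hy, hEy⟩ := hS3 (c, e) ⟨hc, he⟩
    rw [hf] at hy
    obtain ⟨n, rfl⟩ := hy
    refine ⟨n, ?_⟩
    show Iso c (f n).1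
    rcases hEy with h | ⟨-, -, g, hg, -⟩
    · rw [← h]
      exact ⟨Equiv.refl ℕ, fun _ _ _ => rfl⟩
    · exact ⟨g, hg⟩
  · right
    refine ⟨fun x => (h x).1, continuous_fst.comp h1, fun x => (h2 x).1, fun x x' hI => ?_⟩
    by_contra hne
    apply h3 x x' hne
    obtain ⟨g, hg⟩ := hI
    replace hg : ∀ n (R : L.Relations n) (t : Fin n → ℕ),
        (h x).1 ⟨n, R, t⟩ = (h x').1 ⟨n, R, fun k => g (t k)⟩ := hg
    have hg' : ∀ n (R : L.Relations n) (v : Fin n → ℕ),
        toI (h x).1 n R v ↔ toI (h x').1 n R fun k => g (v k) := by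
      intro n R v
      unfold toI
      rw [hg]
    -- pull back the enumeration
    have he : Enm (toI (h x).1) fun y => (h x').2 (g y) := by
      constructor
      · intro y z hs hyz
        exact g.injective ((h2 x').2.1 _ _ ((sw_map g hg' y z).1 hs) hyz)
      · intro y n hn
        obtain ⟨z, hz, hz'⟩ := (h2 x').2.2 (g y) n hn
        refine ⟨g.symm z, (sw_map g hg' _ _).2 (by simpa using hz), by simpa using hz'⟩
    obtain ⟨k, hk1, hk2⟩ := enm_unique (h2 x).2 he
    refine Or.inr ⟨⟨hKU (h2 x).1, (h2 x).2⟩, ⟨hKU (h2 x').1, (h2 x').2⟩, k.trans g,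
      fun n R t => ?_, fun y => (hk2 y).symm⟩
    have e1 := hk1 n R t
    have e2 := hg n R fun j => k (t j)
    rw [Equiv.coe_trans]
    show (h x).1 ⟨n, R, t⟩ = (h x').1 ⟨n, R, fun j => g (k (t j))⟩
    rw [← e2, Bool.eq_iff_iff]
    exact e1

/-- The dichotomy for analytic classes of structures which are closed under equivalence in the
fragment. -/
theorem main_closed (K : Set (Code L)) (hK : AnalyticSet K)
    (hcl : ∀ c ∈ K, ∀ c', ty (toI c) [] = ty (toI c') [] → c' ∈ K) :
    (∃ g : ℕ → Code L, ∀ c ∈ K, ∃ n, Iso c (g n)) ∨ PerfK K := by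
  by_cases h : ∃ c ∈ K, Nonempty (Fr (toI c))
  · right
    obtain ⟨c, hc, ⟨C⟩⟩ := h
    obtain ⟨f, hf1, hf2, hf3⟩ := C.perf
    exact ⟨f, hf1, fun x => hcl c hc _ (hf2 x).symm, hf3⟩
  · push Not at h
    refine exch_dich K hK fun c hc => exch ?_
    intro hF
    exact (not_nonempty_iff.2 (h c hc)) hF

end Dich

end Pool.Agent.H667.FI
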