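import Pool.Agent.H667.FI.Inv

set_option autoImplicit false

/-!
In a structure without freedom, two points in the same orbit are exchanged by an automorphism which
fixes all the other points.
-/

namespace Pool.Agent.H667.FI

open FirstOrder Set
open Pool.Agent.H565R2.FO2 (Interp Code toI ofI toI_ofI Iso)

variable {L : FirstOrder.Language.{0, 0}}

theorem split_head {α : Type} (a : α) (l : List α) :
    ∃ (r : ℕ) (κ : List α), l = List.replicate r a ++ κ ∧ κ.head? ≠ some a := by
  classical
  induction l with
  | nil => exact ⟨0, [], rfl, by simp⟩
  | cons b l ih =>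
    by_cases h : b = a
    · subst h
      obtain ⟨r, κ, h1, h2⟩ := ih
      exact ⟨r + 1, κ, by rw [h1]; rfl, h2⟩
    · exact ⟨0, b :: l, rfl, by simpa using h⟩

theorem split_word {α : Type} {a : α} {c : List α} (h : a ∈ c) :
    ∃ (v : List α) (r : ℕ) (κ : List α), c = v ++ (List.replicate (r + 1) a ++ κ) ∧
      κ.head? ≠ some a ∧ v.getLast? ≠ some a := by
  obtain ⟨s, t, rfl⟩ := List.append_of_mem h
  obtain ⟨r1, κ, h1, h2⟩ := split_head a t
  obtain ⟨r2, v, h3, h4⟩ := split_head a s.reverse
  have hs : s = v.reverse ++ List.replicate r2 a := by
    have := congrArg List.reverse h3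
    rw [List.reverse_reverse, List.reverse_append, List.reverse_replicate] at this
    exact this
  refine ⟨v.reverse, r1 + r2, κ, ?_, h2, ?_⟩
  · rw [hs, h1, List.append_assoc]
    congr 1
    rw [show r1 + r2 + 1 = r2 + (r1 + 1) by omega, List.replicate_add, List.append_assoc]
    rfl
  · rw [List.getLast?_reverse]
    exact h4

/-- Automorphisms. -/
def IsAut (I : Interp L ℕ) (g : ℕ ≃ ℕ) : Prop :=
  ∀ n (R : L.Relations n) (v : Fin n → ℕ), I n R v ↔ I n R fun k => g (v k)

/-- Two points in the same orbit are exchanged by an automorphism which fixes all other points. -/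
def Exch (I : Interp L ℕ) : Prop := ∀ g : ℕ ≃ ℕ, IsAut I g → ∀ x, IsAut I (Equiv.swap x (g x))

/-- Similar points. -/
def EqK (I : Interp L ℕ) (x y : ℕ) : Prop :=
  x = y ∨ (¬ King I x ∧ ∀ u : List ℕ, (∀ z ∈ u, King I z) → ty I (x :: u) = ty I (y :: u))

theorem unique_amalgam {I : Interp L ℕ} (hJ : Hom I) (hF : ¬ Nonempty (Fr I)) (c : List ℕ)
    (b b' : ℕ) (hb : c.head? ≠ some b) (hb' : c.head? ≠ some b')
    (hdl : ty I (b :: c).dropLast = ty I (b' :: c).dropLast) (hk : ¬ King I b)
    (hc : ∃ x ∈ c, ¬ King I x) : ty I (b :: c) = ty I (b' :: c) := by
  by_contra hne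
  apply hF
  obtain ⟨x, hxc, hx⟩ := hc
  obtain ⟨v, r, κ, hcv, hκ, hv⟩ := split_word hxc
  subst hcv
  exact ⟨{ hJ := hJ, vc := v, ac := x, r := r, κc := κ, d1 := b, d2 := b', hκ := hκ, hv := hv,
           hka := hx, hk1 := hk, h1 := hb, h2 := hb', hs := hdl, hne := hne }⟩

theorem perm_ty {I : Interp L ℕ} (hF : ¬ Nonempty (Fr I)) (g : ℕ ≃ ℕ)
    (hg : ∀ x, EqK I x (g x)) : ∀ n, ∀ w : List ℕ, w.length ≤ n → ty I w = ty I (w.map g) := by
  have hJ : Hom I := fun w w' h b => ext_countable I I h b
  intro n
  induction n with
  | zero =>
    intro w hw
    have : w = [] := List.length_eq_zero_iff.1 (by omega)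
    subst this
    rfl
  | succ n ih =>
    intro w hw
    match w, hw with
    | [], _ => rfl
    | b :: w, hw =>
      have hw1 := ih w (by simpa using hw)
      by_cases hh : w.head? = some b
      · match w, hh with
        | a :: w, hh =>
          have ha : a = b := by simpa using hh
          subst ha
          exact ty_rep hw1
      · have hh' : (w.map g).head? ≠ some (g b) := by
          intro h
          match w, h with
          | a :: w, h =>
            have : g a = g b := by simpa using h
            rw [g.injective this] at hh
            exact hh rfl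
        by_cases hb : King I b
        · have hgb : b = g b := by
            rcases hg b with h | h
            · exact h
            · exact absurd hb h.1
          obtain ⟨b', hb'⟩ := hJ _ _ hw1 b
          have h1 := hb b' (ty_single hb').symm
          subst h1
          rw [hb', List.map_cons, ← hgb]
        · by_cases hall : ∀ x ∈ w, King I x
          · have hfix : w.map g = w := by
              conv_rhs => rw [← List.map_id w]
              refine List.map_congr_left fun x hx => ?_
              rcases hg x with h | h
              · exact h.symm
              · exact absurd (hall x hx) h.1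
            rcases hg b with h | h
            · rw [List.map_cons, hfix, ← h]
            · rw [List.map_cons, hfix]
              exact h.2 w hall
          · push Not at hall
            have h2 := ih (b :: w).dropLast (by
              rw [List.length_dropLast]; simp at hw ⊢; omega)
            rw [List.map_dropLast, List.map_cons] at h2
            rw [List.map_cons]
            obtain ⟨b', hb'⟩ := hJ _ _ hw1.symm (g b)
            rw [hb']
            have hhb : w.head? ≠ some b' := by
              intro h
              match w, h with
              | a :: w, h =>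
                have : a = b' := by simpa using h
                subst this
                have := (ty_eq_iff hb').2 rfl
                rw [List.map_cons] at hh'
                apply hh'
                rw [this]; rfl
            exact unique_amalgam hJ hF w b b' hh hhb (h2.trans (ty_dropLast hb')) hb hall

theorem iso_of_ty {I I' : Interp L ℕ} (g : ℕ ≃ ℕ) (h : ∀ w : List ℕ, ty I w = ty I' (w.map g))
    (n : ℕ) (R : L.Relations n) (v : Fin n → ℕ) : I n R v ↔ I' n R fun k => g (v k) := by
  have h1 := sat_of_ty (h (List.ofFn v).reverse) (.rel R)
  have e : (List.ofFn v).reverse.map g = (List.ofFn fun k => g (v k)).reverse := by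
    rw [List.map_reverse, List.map_ofFn]; rfl
  rw [e] at h1
  have h2 := sat_rel_iff I R v []
  have h3 := sat_rel_iff I' R (fun k => g (v k)) []
  rw [List.append_nil] at h2 h3
  exact h2.symm.trans (h1.trans h3)

/-- No freedom implies the exchange property. -/
theorem exch {I : Interp L ℕ} (hF : ¬ Nonempty (Fr I)) : Exch I := by
  intro g hg x
  have hty : ∀ w, ty I w = ty I (w.map g) := fun w => ty_map g hg w
  have hking : ∀ z, King I z → g z = z := by
    intro z hz
    apply hz
    have := hty [z]
    rw [this]; rfl
  have hx : EqK I x (g x) := by
    by_cases h : x = g x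
    · exact Or.inl h
    · refine Or.inr ⟨fun hk => h (hking x hk).symm, fun u hu => ?_⟩
      have h1 := hty (x :: u)
      have h2 : u.map g = u := by
        conv_rhs => rw [← List.map_id u]
        exact List.map_congr_left fun z hz => hking z (hu z hz)
      rw [h1, List.map_cons, h2]
  have hx' : EqK I (g x) x := by
    rcases hx with h | ⟨h1, h2⟩
    · exact Or.inl h.symm
    · refine Or.inr ⟨fun hk => ?_, fun u hu => (h2 u hu).symm⟩
      apply h1
      exact king_of_ty (h2 [] (by simp)) hk
  have hswap : ∀ z, EqK I z (Equiv.swap x (g x) z) := by
    intro z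
    by_cases h1 : z = x
    · subst h1
      rw [Equiv.swap_apply_left]; exact hx
    · by_cases h2 : z = g x
      · subst h2
        rw [Equiv.swap_apply_right]; exact hx'
      · rw [Equiv.swap_apply_of_ne_of_ne h1 h2]
        exact Or.inl rfl
  intro n R v
  exact iso_of_ty _ (fun w => perm_ty hF _ hswap _ w le_rfl) n R v

end Pool.Agent.H667.FI
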